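import Pool.Agent.Helper49.SE.El1
import Pool.Agent.Helper59.SE.FO
import Pool.Agent.Helper49.SQ.PTc

/-!
# Package CONE2 (project SE): etale coordinates on an open part of the cone
-/

set_option autoImplicit false
set_option linter.unusedSectionVars false
set_option linter.unusedVariables false

open MvPolynomial TensorProduct

namespace Pool.Agent.Helper38.SE.C2

open Pool.Agent.W559.Mg Pool.Agent.W559.Et Pool.Agent.Helper49.SE Pool.Agent.Helper49.SQ
  Pool.Agent.Helper49.SQ.PTL Pool.Agent.Helper50.SQ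

section pt

variable {k K K' : Type} [Field k] [Field K] [Algebra k K] [Field K'] [Algebra k K'] {N : ℕ}
  {A : Subalgebra k K} {z : Fin (N + 1) → K} {G : Type} [Group G] [Finite G]
  {ρ : G →* (K ≃ₐ[k] K)} {ρ' : G →* (K' ≃ₐ[k] K')} {c : K →ₐ[k] K'} {t : K'} {E : ℕ}
  {Z : Finset K'} {B : Subalgebra k K'}

theorem mon1 (hE : 0 < E) (hmon : ∀ m : Fin E → Fin (N + 1), t * c (∏ i, z (m i)) ∈ Z)
    (i j : Fin (N + 1)) : t * c (z i * z j ^ (E - 1)) ∈ Z := by
  obtain ⟨E', rfl⟩ : ∃ E', E = E' + 1 := ⟨E - 1, by omega⟩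
  have h := hmon (Fin.cons i fun _ => j)
  rw [Fin.prod_univ_succ] at h
  simpa using h

theorem mon2 (hE : 0 < E) (hmon : ∀ m : Fin E → Fin (N + 1), t * c (∏ i, z (m i)) ∈ Z)
    (j : Fin (N + 1)) : t * c (z j ^ E) ∈ Z := by
  have h := mon1 hE hmon j j
  rwa [mul_pow_sub_one hE.ne'] at h

/-- Some power is not in the prime. -/
theorem exists_j (hE : 0 < E)
    (hmon : ∀ m : Fin E → Fin (N + 1), t * c (∏ i, z (m i)) ∈ Z)
    (hAB : ∀ a ∈ A, c a ∈ B) (hZB : ∀ x ∈ Z, x ∈ B) (q : Ideal B) (hq : q.IsPrime)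
    (hqZ : ∃ (w : K) (_ : w ∈ Fo A z E) (hx : t * c w ∈ B), (⟨_, hx⟩ : B) ∉ q) :
    ∃ (j : Fin (N + 1)) (hw : t * c (z j ^ E) ∈ B), (⟨_, hw⟩ : B) ∉ q := by
  by_contra hcon
  push Not at hcon
  obtain ⟨w0, hw0, hx, hxq⟩ := hqZ
  apply hxq
  have h1 : ∀ m : Fin E → Fin (N + 1), ∃ h : t * c (∏ i, z (m i)) ∈ B, (⟨_, h⟩ : B) ∈ q := by
    intro m
    have hB := hZB _ (hmon m)
    refine ⟨hB, ?_⟩
    let W : Fin (N + 1) → B := fun j => ⟨t * c (z j ^ E), hZB _ (mon2 hE hmon j)⟩
    have h2 : ∏ i : Fin E, W (m i) ∈ q :=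
      hq.prod_mem_iff.2 ⟨⟨0, hE⟩, Finset.mem_univ _, hcon _ _⟩
    have h3 : (⟨_, hB⟩ : B) ^ E = ∏ i : Fin E, W (m i) := by
      apply Subtype.ext
      rw [SubmonoidClass.coe_pow, SubmonoidClass.coe_finsetProd]
      change (t * c (∏ i, z (m i))) ^ E = ∏ i : Fin E, t * c (z (m i) ^ E)
      rw [Finset.prod_mul_distrib, Finset.prod_const, Finset.card_univ, Fintype.card_fin, mul_pow,
        ← map_pow, ← Finset.prod_pow, map_prod]
    rw [← h3] at h2
    exact hq.mem_of_pow_mem _ h2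
  have h2 : ∀ w ∈ Fo A z E, ∃ h : t * c w ∈ B, (⟨_, h⟩ : B) ∈ q := by
    intro w hw
    unfold Fo at hw
    induction hw using Submodule.span_induction with
    | mem w hw =>
      obtain ⟨a, ha, m, rfl⟩ := hw
      obtain ⟨h3, h4⟩ := h1 m
      have h5 : t * c (a * ∏ i, z (m i)) = c a * (t * c (∏ i, z (m i))) := by
        rw [map_mul]; ring
      have h6 : t * c (a * ∏ i, z (m i)) ∈ B := by
        rw [h5]; exact B.mul_mem (hAB a ha) h3
      refine ⟨h6, ?_⟩
      have h7 : (⟨_, h6⟩ : B) = ⟨c a, hAB a ha⟩ * ⟨_, h3⟩ := Subtype.ext h5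
      rw [h7]
      exact q.mul_mem_left _ h4
    | zero =>
      have h6 : t * c 0 ∈ B := by rw [map_zero, mul_zero]; exact B.zero_mem
      refine ⟨h6, ?_⟩
      have h7 : (⟨_, h6⟩ : B) = 0 := Subtype.ext (by
        change t * c 0 = 0
        rw [map_zero, mul_zero])
      rw [h7]
      exact q.zero_mem
    | add x y _ _ hx hy =>
      obtain ⟨hx1, hx2⟩ := hx
      obtain ⟨hy1, hy2⟩ := hy
      have h5 : t * c (x + y) = t * c x + t * c y := by rw [map_add, mul_add]
      have h6 : t * c (x + y) ∈ B := by rw [h5]; exact B.add_mem hx1 hy1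
      refine ⟨h6, ?_⟩
      have h7 : (⟨_, h6⟩ : B) = ⟨_, hx1⟩ + ⟨_, hy1⟩ := Subtype.ext h5
      rw [h7]
      exact q.add_mem hx2 hy2
    | smul r x _ hx =>
      obtain ⟨hx1, hx2⟩ := hx
      have h5 : t * c (r • x) = algebraMap k K' r * (t * c x) := by
        rw [map_smul, Algebra.smul_def]; ring
      have h6 : t * c (r • x) ∈ B := by rw [h5]; exact B.mul_mem (B.algebraMap_mem r) hx1
      refine ⟨h6, ?_⟩
      have h7 : (⟨_, h6⟩ : B) = algebraMap k B r * ⟨_, hx1⟩ := Subtype.ext h5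
      rw [h7]
      exact q.mul_mem_left _ hx2
  obtain ⟨h3, h4⟩ := h2 w0 hw0
  exact h4

theorem Ch_gen {j : Fin (N + 1)} {C : Subalgebra k K'} (hA : ∀ a ∈ A, c a ∈ C)
    (hz : ∀ i, c (z i / z j) ∈ C) : ∀ b ∈ Ch A z j, c b ∈ C := by
  have h1 : Ch A z j ≤ C.comap c := by
    refine sup_le hA (Algebra.adjoin_le ?_)
    rintro _ ⟨i, rfl⟩
    exact hz i
  exact fun b hb => h1 hb

/-- The point of the projective variety below a point of the cone. -/
theorem pt (hIn : InChStm) (hact : Act ρ A z) (ht0 : t ≠ 0)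
    (hc : ∀ g x, ρ' g (c x) = c (ρ g x)) (hρt : ∀ g, ρ' g t = t) (hE : 0 < E)
    (hmon : ∀ m : Fin E → Fin (N + 1), t * c (∏ i, z (m i)) ∈ Z)
    (hAB : ∀ a ∈ A, c a ∈ B) (hZB : ∀ x ∈ Z, x ∈ B) (hρB : ∀ g, ∀ b ∈ B, ρ' g b ∈ B)
    (q : Ideal B) (hq : q.IsPrime)
    (hqZ : ∃ (w : K) (_ : w ∈ Fo A z E) (hx : t * c w ∈ B), (⟨_, hx⟩ : B) ∉ q) :
    ∃ (j : Fin (N + 1)) (hw : t * c (z j ^ E) ∈ B), (⟨_, hw⟩ : B) ∉ q ∧
      (∀ b ∈ Ch A z j, c b ∈ lc B _ hw) ∧
      ∃ (P : Ideal (Ch A z j)) (hP : P.IsPrime),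
        (∀ (b : Ch A z j) (R : ℕ) (h : (t * c (z j ^ E)) ^ R * c (b : K) ∈ B),
          ((⟨_, h⟩ : B) ∈ q ↔ b ∈ P)) ∧
        ∀ g, (∀ b ∈ B, ∀ h : ρ' g b - b ∈ B, (⟨ρ' g b - b, h⟩ : B) ∈ q) →
          InG ρ (locR (Ch A z j) P hP) g := by
  obtain ⟨j, hw, hwq⟩ := exists_j hE hmon hAB hZB q hq hqZ
  refine ⟨j, hw, hwq, ?_⟩
  set w : K' := t * c (z j ^ E) with hwdef
  have hz := hact.z0
  have hzj : c (z j) ≠ 0 := (map_ne_zero_iff _ c.injective).2 (hz j)
  have hw0 : w ≠ 0 := mul_ne_zero ht0 (by rw [map_pow]; exact pow_ne_zero _ hzj)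
  let B1 : Subalgebra k K' := lc B w hw
  have hBB1 : B ≤ B1 := le_lc _ _ _
  have hwi : w⁻¹ ∈ B1 := inv_mem_lc _ _ _ _ (mul_inv_cancel₀ hw0)
  have hq2 : ∀ i, c (z i / z j) = w⁻¹ * (t * c (z i * z j ^ (E - 1))) := by
    intro i
    have h1 : w = t * c (z j * z j ^ (E - 1)) := by rw [mul_pow_sub_one hE.ne']
    rw [h1, map_div₀, map_mul, map_mul, map_pow]
    field_simp
  have hch : ∀ b ∈ Ch A z j, c b ∈ B1 := by
    refine Ch_gen (fun a ha => hBB1 (hAB a ha)) fun i => ?_
    rw [hq2]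
    exact B1.mul_mem hwi (hBB1 (hZB _ (mon1 hE hmon i j)))
  refine ⟨hch, ?_⟩
  let _ : Algebra B B1 := (Subalgebra.inclusion hBB1).toRingHom.toAlgebra
  have hloc : IsLocalization.Away (⟨w, hw⟩ : B) B1 := isLoc_lc B hw (Ne.isUnit hw0)
  let q1 : Ideal B1 := q.map (algebraMap B B1)
  have hdisj : Disjoint (Submonoid.powers (⟨w, hw⟩ : B) : Set B) (q : Set B) := by
    rw [Set.disjoint_left]
    rintro _ ⟨m, rfl⟩ hm
    exact hwq (hq.mem_of_pow_mem m hm)
  have hq1 : q1.IsPrime :=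
    IsLocalization.isPrime_of_isPrime_disjoint (Submonoid.powers (⟨w, hw⟩ : B)) B1 q hq hdisj
  have hq1c : ∀ b : B, algebraMap B B1 b ∈ q1 ↔ b ∈ q := by
    intro b
    have h1 := IsLocalization.under_map_of_isPrime_disjoint
      (Submonoid.powers (⟨w, hw⟩ : B)) B1 hq hdisj
    constructor
    · intro h
      rw [← h1]
      exact h
    · intro h
      exact Ideal.mem_map_of_mem _ h
  have hq1m : ∀ (x : K') (h : x ∈ B) (h' : x ∈ B1), (⟨x, h⟩ : B) ∈ q → (⟨x, h'⟩ : B1) ∈ q1 :=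
    fun x h h' hx => (hq1c _).2 hx
  let φ : Ch A z j →+* B1 :=
    { toFun := fun b => ⟨c b, hch b b.2⟩
      map_one' := Subtype.ext (map_one c)
      map_mul' := fun a b => Subtype.ext (map_mul c _ _)
      map_zero' := Subtype.ext (map_zero c)
      map_add' := fun a b => Subtype.ext (map_add c _ _) }
  let P : Ideal (Ch A z j) := q1.comap φ
  have hPp : P.IsPrime := hq1.comap φ
  have hPm : ∀ (b : Ch A z j), b ∈ P ↔ (⟨c b, hch b b.2⟩ : B1) ∈ q1 := fun b => Iff.rfl
  refine ⟨P, hPp, ?_, ?_⟩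
  · intro b R h
    rw [hPm, ← hq1c]
    have h4 : algebraMap B B1 ⟨w ^ R * c (b : K), h⟩ =
        algebraMap B B1 ⟨w, hw⟩ ^ R * ⟨c b, hch b b.2⟩ := Subtype.ext rfl
    rw [h4]
    constructor
    · intro h3
      rcases hq1.mem_or_mem h3 with h5 | h5
      · exact absurd ((hq1c _).1 (hq1.mem_of_pow_mem _ h5)) hwq
      · exact h5
    · intro h3
      exact q1.mul_mem_left _ h3
  · intro g hg
    rw [hIn k K N A z G ρ hact j P hPp g]
    -- the quotients
    have hr : ∀ i, ρ g (z i) / z j ∈ Ch A z j := by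
      intro i
      have h1 := hact.lin g i
      have h2 : ∀ x ∈ Submodule.span k (Set.range z), x / z j ∈ Ch A z j := by
        intro x hx
        induction hx using Submodule.span_induction with
        | mem x hx =>
          obtain ⟨l, rfl⟩ := hx
          exact (le_sup_right : _ ≤ Ch A z j) (Algebra.subset_adjoin ⟨l, rfl⟩)
        | zero => rw [zero_div]; exact (Ch A z j).zero_mem
        | add x y _ _ hx hy => rw [add_div]; exact (Ch A z j).add_mem hx hy
        | smul r x _ hx =>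
          rw [smul_div_assoc]
          exact (Ch A z j).smul_mem hx r
      exact h2 _ h1
    have hzz : ∀ i, z i / z j ∈ Ch A z j := fun i =>
      (le_sup_right : _ ≤ Ch A z j) (Algebra.subset_adjoin ⟨i, rfl⟩)
    let r : Fin (N + 1) → Ch A z j := fun i => ⟨ρ g (z i) / z j, hr i⟩
    let x : Fin (N + 1) → Ch A z j := fun i => ⟨z i / z j, hzz i⟩
    have key : ∀ i, r i * r j ^ (E - 1) - x i ∈ P := by
      intro i
      rw [hPm]
      have hb : t * c (z i * z j ^ (E - 1)) ∈ B := hZB _ (mon1 hE hmon i j)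
      have h1 := B.sub_mem (hρB g _ hb) hb
      have h2 := hg _ hb h1
      have h3 := hq1m _ _ (hBB1 h1) h2
      have h4 : (⟨c (r i * r j ^ (E - 1) - x i : Ch A z j), hch _ (r i * r j ^ (E - 1) - x i).2⟩ : B1)
          = ⟨w⁻¹, hwi⟩ * ⟨_, hBB1 h1⟩ := by
        apply Subtype.ext
        change c (ρ g (z i) / z j * (ρ g (z j) / z j) ^ (E - 1) - z i / z j) =
          w⁻¹ * (ρ' g (t * c (z i * z j ^ (E - 1))) - t * c (z i * z j ^ (E - 1)))
        rw [mul_sub, ← hq2, map_sub]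
        congr 1
        have h5 : w = t * c (z j * z j ^ (E - 1)) := by rw [mul_pow_sub_one hE.ne']
        rw [h5, map_mul (ρ' g), hρt, hc, map_mul (ρ g), map_pow (ρ g), map_mul, map_mul, map_mul,
          map_pow, map_pow, map_pow, map_div₀, map_div₀, div_pow]
        field_simp
      rw [h4]
      exact q1.mul_mem_left _ h3
    constructor
    · intro i h
      have h1 : r j * r j ^ (E - 1) - 1 ∈ P := by
        have h2 : x j = 1 := Subtype.ext (div_self (hz j))
        have h3 := key j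
        rwa [h2] at h3
      have h2 : (⟨_, h⟩ : Ch A z j) = r i - x i * r j := Subtype.ext rfl
      rw [h2]
      have h3 : r i - x i * r j = r j * (r i * r j ^ (E - 1) - x i) -
          r i * (r j * r j ^ (E - 1) - 1) := by ring
      rw [h3]
      exact P.sub_mem (P.mul_mem_left _ (key i)) (P.mul_mem_left _ h1)
    · intro a ha h
      rw [hPm]
      have h1 : ρ' g (c a) - c a ∈ B := B.sub_mem (hρB g _ (hAB a ha)) (hAB a ha)
      have h2 := hq1m _ _ (hBB1 h1) (hg _ (hAB a ha) h1)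
      have h3 : (⟨c ((⟨_, h⟩ : Ch A z j) : K), hch _ h⟩ : B1) = ⟨_, hBB1 h1⟩ := by
        apply Subtype.ext
        change c (ρ g a - a) = ρ' g (c a) - c a
        rw [map_sub, hc]
      exact h3 ▸ h2

end pt

theorem inv_aux1 {L : Type} [Field L] (a c : L) (R : ℕ) :
    (a * (a ^ R * c))⁻¹ = a⁻¹ * (a⁻¹ ^ R * c⁻¹) := by
  rw [mul_inv, mul_inv, inv_pow]

theorem inv_aux2 {L : Type} [Field L] (a b : L) (hb : b ≠ 0) : a⁻¹ = (a * b)⁻¹ * b := by
  rw [mul_inv, mul_assoc, inv_mul_cancel₀ hb, mul_one]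

section inv

variable {k K K' : Type} [Field k] [Field K] [Algebra k K] [Field K'] [Algebra k K'] {N : ℕ}
  {A : Subalgebra k K} {z : Fin (N + 1) → K} {c : K →ₐ[k] K'} {t : K'}
  {B : Subalgebra k K'}

/-- A point of the cone with one of the `t c(f ^ e)` not zero lies over the open subset. -/
theorem inV_of (hFo : FoChStm) (hz : ∀ i, z i ≠ 0) {Sf : Finset K} {d e : ℕ}
    (hSf : ∀ f ∈ Sf, f ∈ Fo A z d) (he : 0 < e) {U : Finset K'}
    (hU : ∀ x ∈ U, ∃ f ∈ Sf, x = t * c (f ^ e)) (q : Ideal B)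
    (hqU : ∃ (x : K') (hx : x ∈ B), x ∈ U ∧ (⟨x, hx⟩ : B) ∉ q) (j : Fin (N + 1))
    (P : Ideal (Ch A z j))
    (hP : ∀ (b : Ch A z j) (R : ℕ) (h : (t * c (z j ^ (d * e))) ^ R * c (b : K) ∈ B),
          ((⟨_, h⟩ : B) ∈ q ↔ b ∈ P)) : InV A z Sf d j P := by
  obtain ⟨x, hx, hxU, hxq⟩ := hqU
  obtain ⟨f, hf, rfl⟩ := hU x hxU
  have h1 := (hFo k K N A z hz j).1 d f (hSf f hf)
  refine ⟨f, hf, h1, fun hcon => hxq ?_⟩
  have h2 : (⟨_, h1⟩ : Ch A z j) ^ e ∈ P := P.pow_mem_of_mem hcon e he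
  have h3 : t * c (f ^ e) =
      (t * c (z j ^ (d * e))) ^ 1 * c (((⟨_, h1⟩ : Ch A z j) ^ e : Ch A z j) : K) := by
    rw [SubmonoidClass.coe_pow, pow_one, mul_assoc, ← map_mul]
    congr 2
    change f ^ e = z j ^ (d * e) * (f / z j ^ d) ^ e
    have h4 := pow_ne_zero d (hz j)
    rw [pow_mul, ← mul_pow, mul_div_cancel₀ _ h4]
  have h5 : (t * c (z j ^ (d * e))) ^ 1 * c (((⟨_, h1⟩ : Ch A z j) ^ e : Ch A z j) : K) ∈ B := by
    rw [← h3]; exact hx
  have h6 := (hP _ 1 h5).2 h2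
  have h7 : (⟨_, hx⟩ : B) = ⟨_, h5⟩ := Subtype.ext h3
  rw [h7]
  exact h6

theorem fo_pow (A : Subalgebra k K) (z : Fin (N + 1) → K) {d : ℕ} {x : K} (hx : x ∈ Fo A z d)
    (n : ℕ) : x ^ n ∈ Fo A z (d * n) := by
  have h1 := Pool.Agent.Helper59.SE.foMul k K N A z
  induction n with
  | zero => simpa using h1.2.1 1 A.one_mem
  | succ n ih =>
    rw [pow_succ, Nat.mul_succ]
    exact h1.1 _ _ _ _ ih hx

end inv

/-- Package CONE2. -/
theorem cone2 (hFo : FoChStm) (hIn : InChStm) (hEt : EtLocStm) : ConeG2Stm := by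
  intro k K K' _ _ _ _ _ N A z G _ _ ρ hact hAfg Sf d hd hSf ρ' c t htr hc hρt e he Z Y U hZ hρZ
    hρY hmon hU hYA hDat B hB
  classical
  have hE : 0 < d * e := Nat.mul_pos hd he
  have hqW : ∀ q : Ideal B, (∃ (x : K') (hx : x ∈ B), x ∈ U ∧ (⟨x, hx⟩ : B) ∉ q) →
      ∃ (w : K) (_ : w ∈ Fo A z (d * e)) (hx : t * c w ∈ B), (⟨_, hx⟩ : B) ∉ q := by
    rintro q ⟨x, hx, hxU, hxq⟩
    obtain ⟨f, hf, rfl⟩ := hU x hxU
    exact ⟨f ^ e, fo_pow A z (hSf f hf) e, hx, hxq⟩
  have ht0 : t ≠ 0 := by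
    rintro rfl
    exact htr isAlgebraic_zero
  have hz := hact.z0
  have hAB : ∀ a ∈ A, c a ∈ B := by
    intro a ha
    have h1 : c a ∈ A.map c := ⟨a, ha, rfl⟩
    rw [← hYA] at h1
    rw [hB]
    exact Algebra.adjoin_mono Set.subset_union_left h1
  have hZB : ∀ x ∈ Z, x ∈ B := fun x hx => by
    rw [hB]
    exact Algebra.subset_adjoin (Or.inr hx)
  have hρB : ∀ g, ∀ b ∈ B, ρ' g b ∈ B := by
    intro g
    have h1 : B ≤ B.comap (ρ' g : K' →ₐ[k] K') := by
      conv_lhs => rw [hB]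
      refine Algebra.adjoin_le ?_
      rintro b (hb | hb)
      · change ρ' g b ∈ B
        rw [hB]
        exact Algebra.subset_adjoin (Or.inl (hρY g b hb))
      · exact hZB _ (hρZ g b hb)
    exact fun b hb => h1 hb
  refine ⟨?_, ?_⟩
  · intro q hq hqZ
    obtain ⟨j, hw, hwq, hch, P, hP, hPq, hin⟩ :=
      pt (E := d * e) hIn hact ht0 hc hρt hE hmon hAB hZB hρB q hq (hqW q hqZ)
    have hInV := inV_of hFo hact.z0 hSf he hU q hqZ j P hPq
    obtain ⟨f, hf, hfP, s, n, y, het, hs0, hsF, hsyF, hzs, hTZ, hTyZ, hJ⟩ := hDat j P hP hInV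
    set w : K' := t * c (z j ^ (d * e)) with hwdef
    have hcz : ∀ x : K, x ≠ 0 → c x ≠ 0 := fun x hx => (map_ne_zero_iff _ c.injective).2 hx
    have hf0 : f ≠ 0 := by
      intro h
      apply hfP
      have h1 : (⟨f, hf⟩ : Ch A z j) = 0 := Subtype.ext h
      rw [h1]
      exact P.zero_mem
    have hw0 : w ≠ 0 := mul_ne_zero ht0 (hcz _ (pow_ne_zero _ (hz j)))
    have hcf0 : c f ≠ 0 := hcz f hf0
    have hcs0 : c s ≠ 0 := hcz s hs0
    let C0 : Subalgebra k K := Ch A z j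
    let A' : Subalgebra k K := lc C0 f hf
    have hCA : C0 ≤ A' := le_lc _ _ _
    let T' : Subalgebra k K' := A'.map c
    have hT'm : ∀ a ∈ A', c a ∈ T' := fun a ha => ⟨a, ha, rfl⟩
    let eA : A' ≃ₐ[k] T' := A'.equivMapOfInjective c c.injective
    have heA : ∀ a : A', (eA a : K') = c a := fun a => rfl
    let x' : Fin n → T' := fun i => eA (y i)
    have het' : ((aeval x' : MvPolynomial (Fin n) k →ₐ[k] T').toRingHom).Etale := by
      have h1 : (aeval x' : MvPolynomial (Fin n) k →ₐ[k] T').toRingHom =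
          (eA : A' →+* T').comp (aeval y : MvPolynomial (Fin n) k →ₐ[k] A').toRingHom := by
        apply MvPolynomial.ringHom_ext
        · intro r
          change aeval x' (C r) = eA (aeval y (C r))
          rw [aeval_C, aeval_C, AlgEquiv.commutes]
        · intro i
          change aeval x' (MvPolynomial.X i) = eA (aeval y (MvPolynomial.X i))
          rw [aeval_X, aeval_X]
      rw [h1]
      refine RingHom.Etale.stableUnderComposition _ _ het ?_
      exact RingHom.Etale.of_bijective eA.bijective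
    have hftA : Algebra.FiniteType k A' := finiteType_lc C0 (by
      refine Subalgebra.fg_iff_finiteType _ |>.1 ?_
      exact hAfg.sup (Subalgebra.fg_def.2 ⟨_, Set.finite_range _, rfl⟩)) _ _ hf0
    have hftT : Algebra.FiniteType k T' := Algebra.FiniteType.equiv hftA eA
    set T : K' := t * c s with hTdef
    have hT0 : T ≠ 0 := mul_ne_zero ht0 hcs0
    have hTB : T ∈ B := hZB _ hTZ
    -- transcendence
    have hT'K0 : ∀ a ∈ T', a ∈ c.fieldRange := by
      rintro _ ⟨a, -, rfl⟩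
      exact ⟨a, rfl⟩
    have hTtr : Transcendental c.fieldRange T := by
      intro halg
      apply htr
      have hu : c s ∈ c.fieldRange := ⟨s, rfl⟩
      have h1 : t = T * algebraMap c.fieldRange K' ⟨(c s)⁻¹, c.fieldRange.inv_mem hu⟩ := by
        change t = t * c s * (c s)⁻¹
        rw [mul_inv_cancel_right₀ hcs0]
      rw [h1]
      exact halg.mul (isAlgebraic_algebraMap _)
    have hTtr' : Transcendental T' T := by
      rw [transcendental_iff_injective, injective_iff_map_eq_zero]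
      intro p hp
      let ψ : T' →+* c.fieldRange := (Subalgebra.inclusion (S := T')
        (T := c.fieldRange.toSubalgebra) fun a ha => hT'K0 a ha).toRingHom
      have hψ : Function.Injective ψ := fun a b hab => by
        apply Subtype.ext
        have h := congrArg (fun c : c.fieldRange => (c : K')) hab
        exact h
      have h1 : Polynomial.aeval T (p.map ψ) = 0 := by
        rw [Polynomial.aeval_def, Polynomial.eval₂_map]
        exact hp
      have h2 : p.map ψ = 0 := by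
        by_contra hne
        exact hTtr ⟨p.map ψ, hne, h1⟩
      exact (Polynomial.map_eq_zero_iff hψ).1 h2
    -- the denominator
    obtain ⟨R, hR⟩ := hch f hf
    have hR' : w ^ R * c f ∈ B := hR
    set φ : K' := w * (w ^ R * c f) with hφdef
    have hφ : φ ∈ B := B.mul_mem hw hR'
    have hφq : (⟨φ, hφ⟩ : B) ∉ q := by
      intro hcon
      have h1 : (⟨φ, hφ⟩ : B) = ⟨w, hw⟩ * ⟨_, hR'⟩ := rfl
      rw [h1] at hcon
      rcases hq.mem_or_mem hcon with h2 | h2
      · exact hwq h2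
      · exact hfP ((hPq ⟨f, hf⟩ R hR').1 h2)
    have hφ0 : φ ≠ 0 := mul_ne_zero hw0 (mul_ne_zero (pow_ne_zero _ hw0) hcf0)
    -- comparison
    have hTL : T ∈ Lau T' T := s_mem_Lau T' T
    have hTiL : T⁻¹ ∈ Lau T' T := sinv_mem_Lau T' hTtr'
    have hT'L : T' ≤ Lau T' T := T_le_Lau T' T
    have hFoC : ∀ v ∈ Fo A z (d * e), v / z j ^ (d * e) ∈ C0 := fun v hv => (hFo k K N A z hz j).1 (d * e) v hv
    have hZL : ∀ v ∈ Fo A z (d * e), t * c v ∈ Lau T' T := by
      intro v hv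
      have h1 : t * c v = T * c (v / z j ^ (d * e) * (z j ^ (d * e) / s)) := by
        have h2 := hcz _ (pow_ne_zero (d * e) (hz j))
        rw [hTdef, map_mul c, map_div₀, map_div₀]
        field_simp
      rw [h1]
      exact (Lau T' T).mul_mem hTL (hT'L (hT'm _ (A'.mul_mem (hCA (hFoC v hv)) hzs)))
    have hBL : B ≤ Lau T' T := by
      rw [hB]
      refine Algebra.adjoin_le ?_
      rintro b (hb | hb)
      · have h1 : b ∈ A.map c := by
          rw [← hYA]
          exact Algebra.subset_adjoin hb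
        obtain ⟨a, ha, rfl⟩ := h1
        exact hT'L (hT'm _ (hCA ((le_sup_left : A ≤ Ch A z j) ha)))
      · obtain ⟨v, hv, rfl⟩ := hZ b hb
        exact hZL v hv
    have hwiL : w⁻¹ ∈ Lau T' T := by
      have h1 : w⁻¹ = T⁻¹ * c (s / z j ^ (d * e)) := by
        have h2 := hcz _ (pow_ne_zero (d * e) (hz j))
        rw [hTdef, hwdef, map_div₀]
        field_simp
      rw [h1]
      exact (Lau T' T).mul_mem hTiL (hT'L (hT'm _ (hCA (hFoC s hsF))))
    have hfi : f⁻¹ ∈ A' := inv_mem_lc _ _ _ _ (mul_inv_cancel₀ hf0)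
    have hφiL : φ⁻¹ ∈ Lau T' T := by
      have h1 : φ⁻¹ = w⁻¹ * (w⁻¹ ^ R * c f⁻¹) := by
        rw [map_inv₀]
        exact inv_aux1 w (c f) R
      rw [h1]
      exact (Lau T' T).mul_mem hwiL ((Lau T' T).mul_mem ((Lau T' T).pow_mem hwiL _)
        (hT'L (hT'm _ hfi)))
    have hle1 : lc B φ hφ ≤ Lau T' T := lc_le hφ (mul_inv_cancel₀ hφ0) hBL hφiL
    have hBl : B ≤ lc B φ hφ := le_lc _ _ _
    have hφi : φ⁻¹ ∈ lc B φ hφ := inv_mem_lc _ _ _ _ (mul_inv_cancel₀ hφ0)
    have hwil : w⁻¹ ∈ lc B φ hφ := by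
      have h1 : w⁻¹ = φ⁻¹ * (w ^ R * c f) := by
        have h2 : w ^ R * c f ≠ 0 := mul_ne_zero (pow_ne_zero _ hw0) hcf0
        exact inv_aux2 w _ h2
      rw [h1]
      exact (lc B φ hφ).mul_mem hφi (hBl hR')
    have hB1l : lc B w hw ≤ lc B φ hφ := lc_le hw (mul_inv_cancel₀ hw0) hBl hwil
    have hT'l : T' ≤ lc B φ hφ := by
      have h1 : A' ≤ (lc B φ hφ).comap c := by
        refine lc_le hf (mul_inv_cancel₀ hf0) (fun b hb => hB1l (hch b hb)) ?_
        change c f⁻¹ ∈ lc B φ hφ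
        have h2 : c f⁻¹ = φ⁻¹ * (w * w ^ R) := by
          rw [hφdef, map_inv₀]
          field_simp
        rw [h2]
        exact (lc B φ hφ).mul_mem hφi ((lc B φ hφ).mul_mem (hBl hw) ((lc B φ hφ).pow_mem (hBl hw) _))
      rintro _ ⟨a, ha, rfl⟩
      exact h1 ha
    have hTil : T⁻¹ ∈ lc B φ hφ := by
      have h1 : T⁻¹ = w⁻¹ * c (z j ^ (d * e) / s) := by
        have h2 := hcz _ (pow_ne_zero (d * e) (hz j))
        rw [hTdef, hwdef, map_div₀]
        field_simp
      rw [h1]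
      exact (lc B φ hφ).mul_mem hwil (hT'l (hT'm _ hzs))
    have hle2 : Lau T' T ≤ lc B φ hφ :=
      lc_le _ (mul_inv_cancel₀ hT0) (adT_le T' T hT'l (hBl hTB)) hTil
    have heq : lc B φ hφ = Lau T' T := le_antisymm hle1 hle2
    -- the coordinates
    let v : Option (Fin n) → K' := fun o => match o with
      | none => T
      | some i => T * c (y i)
    let u : Option (Fin n) → Lau T' T := fun o => match o with
      | none => ⟨T, hTL⟩
      | some i => ⟨T * c (y i), (Lau T' T).mul_mem hTL (hT'L (hT'm _ (y i).2))⟩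
    have huv : ∀ o, (u o : K') = v o := by
      rintro (_ | i) <;> rfl
    have hue := laurent_etale T' hTtr' hftT x' het' u rfl (fun i => rfl)
    let E' := Fintype.equivFin (Option (Fin n))
    have hmain : ((aeval (fun i => u (E'.symm i)) :
        MvPolynomial (Fin (Fintype.card (Option (Fin n)))) k →ₐ[k] Lau T' T).toRingHom).Etale := by
      have h1 : (aeval (fun i => u (E'.symm i)) :
          MvPolynomial (Fin (Fintype.card (Option (Fin n)))) k →ₐ[k] Lau T' T).toRingHom =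
          ((aeval u : MvPolynomial (Option (Fin n)) k →ₐ[k] Lau T' T).toRingHom).comp
            (MvPolynomial.renameEquiv k E'.symm : _ →+* _) := by
        apply MvPolynomial.ringHom_ext
        · intro r
          change aeval _ (C r) = aeval u (rename E'.symm (C r))
          rw [rename_C, aeval_C, aeval_C]
        · intro i
          change aeval _ (MvPolynomial.X i) = aeval u (rename E'.symm (MvPolynomial.X i))
          rw [rename_X, aeval_X, aeval_X]
      rw [h1]
      refine RingHom.Etale.stableUnderComposition _ _ ?_ hue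
      exact RingHom.Etale.of_bijective (MvPolynomial.renameEquiv k E'.symm).bijective
    have key : ∀ C : Subalgebra k K', C = Lau T' T →
        ∃ (x : Fin (Fintype.card (Option (Fin n))) → C),
        ((MvPolynomial.aeval x : MvPolynomial _ k →ₐ[k] C).toRingHom).Etale ∧
        ∀ i, (x i : K') = v (E'.symm i) := by
      intro C hC
      subst hC
      exact ⟨_, hmain, fun i => huv _⟩
    obtain ⟨x, hxe, hxv⟩ := key _ heq
    -- the inertia group
    let H : Subgroup G :=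
      { carrier := {h | ∀ b ∈ B, ∀ hb : ρ' h b - b ∈ B, (⟨_, hb⟩ : B) ∈ q}
        mul_mem' := by
          intro g h hg hh b hb hb'
          have h1 : ρ' h b - b ∈ B := B.sub_mem (hρB h b hb) hb
          have h2 : ρ' g (ρ' h b - b) - (ρ' h b - b) ∈ B := B.sub_mem (hρB g _ h1) h1
          have h3 : ρ' g b - b ∈ B := B.sub_mem (hρB g b hb) hb
          have h4 : (⟨_, hb'⟩ : B) = ⟨_, h2⟩ + ⟨_, h1⟩ + ⟨_, h3⟩ := by
            apply Subtype.ext
            change ρ' (g * h) b - b = ρ' g (ρ' h b - b) - (ρ' h b - b) + (ρ' h b - b) +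
              (ρ' g b - b)
            rw [map_mul, AlgEquiv.mul_apply, map_sub]
            ring
          rw [h4]
          exact q.add_mem (q.add_mem (hg _ h1 h2) (hh _ hb h1)) (hg _ hb h3)
        one_mem' := by
          intro b hb hb'
          have h4 : (⟨_, hb'⟩ : B) = 0 := by
            apply Subtype.ext
            change ρ' 1 b - b = 0
            rw [map_one, AlgEquiv.one_apply, sub_self]
          rw [h4]
          exact q.zero_mem
        inv_mem' := by
          intro g hg b hb hb'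
          have h1 : ρ' g⁻¹ b ∈ B := hρB _ b hb
          have h2 : ρ' g (ρ' g⁻¹ b) - ρ' g⁻¹ b ∈ B := B.sub_mem (hρB g _ h1) h1
          have h4 : (⟨_, hb'⟩ : B) = -⟨_, h2⟩ := by
            apply Subtype.ext
            change ρ' g⁻¹ b - b = -(ρ' g (ρ' g⁻¹ b) - ρ' g⁻¹ b)
            rw [← AlgEquiv.mul_apply, ← map_mul, mul_inv_cancel, map_one, AlgEquiv.one_apply]
            ring
          rw [h4]
          exact q.neg_mem (hg _ h1 h2) }
    have _ : Fintype H := Fintype.ofFinite H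
    have hHφ : ∀ h : H, ρ' h φ ∈ B := fun h => hρB _ _ hφ
    set F : K' := ∏ h : H, ρ' h φ with hFdef
    have hF : F ∈ B := B.prod_mem fun h _ => hHφ h
    have hFq : (⟨F, hF⟩ : B) ∉ q := by
      have h1 : (⟨F, hF⟩ : B) = ∏ h : H, ⟨ρ' h φ, hHφ h⟩ := by
        apply Subtype.ext
        rw [SubmonoidClass.coe_finsetProd]
      rw [h1, hq.prod_mem_iff]
      rintro ⟨h, -, hh⟩
      apply hφq
      have h2 : ρ' h φ - φ ∈ B := B.sub_mem (hHφ h) hφ
      have h3 : (⟨φ, hφ⟩ : B) = ⟨ρ' h φ, hHφ h⟩ - ⟨ρ' h φ - φ, h2⟩ := by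
        apply Subtype.ext
        change φ = ρ' h φ - (ρ' h φ - φ)
        ring
      rw [h3]
      exact q.sub_mem hh (h.2 _ hφ h2)
    have hF0 : F ≠ 0 := Finset.prod_ne_zero_iff.2 fun h _ =>
      (map_ne_zero_iff _ (ρ' h).injective).2 hφ0
    have hFi : F⁻¹ ∈ lc B F hF := inv_mem_lc _ _ _ _ (mul_inv_cancel₀ hF0)
    have hBF : B ≤ lc B F hF := le_lc _ _ _
    have hleF : lc B φ hφ ≤ lc B F hF := by
      refine lc_le hφ (mul_inv_cancel₀ hφ0) hBF ?_
      have h1 : φ⁻¹ = F⁻¹ * ∏ h ∈ Finset.univ.erase (1 : H), ρ' h φ := by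
        have h2 : F = φ * ∏ h ∈ Finset.univ.erase (1 : H), ρ' h φ := by
          rw [hFdef, ← Finset.mul_prod_erase _ (fun h : H => ρ' h φ) (Finset.mem_univ 1)]
          congr 1
          change ρ' 1 φ = φ
          rw [map_one, AlgEquiv.one_apply]
        have h3 : ∏ h ∈ Finset.univ.erase (1 : H), ρ' h φ ≠ 0 := by
          intro h0
          rw [h0, mul_zero] at h2
          exact hF0 h2
        rw [h2]
        exact inv_aux2 φ _ h3
      rw [h1]
      exact (lc B F hF).mul_mem hFi ((lc B F hF).prod_mem fun h _ => hBF (hHφ h))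
    have hCF : lc B F hF = lc (lc B φ hφ) F (le_lc B φ hφ hF) := by
      apply le_antisymm
      · exact lc_mono hF (le_lc B φ hφ hF) (le_lc B φ hφ)
      · exact lc_le _ (mul_inv_cancel₀ hF0) hleF hFi
    refine ⟨F, hF, hFq, Fintype.card (Option (Fin n)), fun i => ⟨x i, hleF (x i).2⟩, ?_, ?_, ?_⟩
    · exact hEt k K' B φ F hφ hF hF0 (lc B F hF) hleF hCF _ x hxe _ fun i => rfl
    · intro i
      change (x i : K') ∈ Z
      rw [hxv]
      generalize E'.symm i = o
      rcases o with _ | l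
      · exact hTZ
      · change t * c s * c (y l) ∈ Z
        rw [mul_assoc, ← map_mul]
        exact hTyZ l
    · intro h hh
      have hhH : h ∈ H := fun b hb hb' => hh b hb hb'
      constructor
      · rw [hFdef, map_prod]
        have h1 : ∀ g : H, ρ' h (ρ' g φ) = ρ' ((⟨h, hhH⟩ * g : H) : G) φ := by
          intro g
          rw [Subgroup.coe_mul, map_mul ρ', AlgEquiv.mul_apply]
        rw [Finset.prod_congr rfl fun g _ => h1 g]
        exact Fintype.prod_equiv (Equiv.mulLeft (⟨h, hhH⟩ : H)) _ _ fun g => rfl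
      · have hIG := hin h hh
        obtain ⟨hρs, hρy⟩ := hJ h hIG
        have hrange : (Set.range fun i => ((⟨x i, hleF (x i).2⟩ : lc B F hF) : K')) =
            Set.range v := by
          ext a
          constructor
          · rintro ⟨i, rfl⟩
            exact ⟨E'.symm i, (hxv i).symm⟩
          · rintro ⟨o, rfl⟩
            refine ⟨E' o, ?_⟩
            change (x (E' o) : K') = v o
            rw [hxv, E'.symm_apply_apply]
        intro i
        rw [hrange]
        change ρ' h (x i) ∈ _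
        rw [hxv]
        generalize E'.symm i = o
        have hρT : ρ' h T = T := by
          rw [hTdef, map_mul, hρt, hc, hρs]
        rcases o with _ | l
        · change ρ' h T ∈ _
          rw [hρT]
          exact Submodule.subset_span ⟨none, rfl⟩
        · change ρ' h (T * c (y l)) ∈ _
          rw [map_mul, hρT, hc]
          have h1 := Submodule.mem_map_of_mem
            (f := (LinearMap.mulLeft k T).comp c.toLinearMap) (hρy l)
          rw [Submodule.map_span] at h1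
          refine Submodule.span_mono ?_ h1
          rintro _ ⟨_, ⟨l', rfl⟩, rfl⟩
          exact ⟨some l', rfl⟩
  · intro q hq hqZ
    obtain ⟨j, hw, hwq, hch, P, hP, hPq, hin⟩ :=
      pt (E := d * e) hIn hact ht0 hc hρt hE hmon hAB hZB hρB q hq (hqW q hqZ)
    have hInV := inV_of hFo hact.z0 hSf he hU q hqZ j P hPq
    exact ⟨j, P, hP, hInV, hin⟩

end Pool.Agent.Helper38.SE.C2
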